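import Pool.Agent.Results.MP_42de19_nt.LowDegreeSystems
import Pool.Agent.Lib.MP_42de19_nt.Old.CubicHypersurfaces
import Pool.Agent.Lib.MP_42de19_nt.Old.TwoQuadrics

/-!
Checks: the theorem on systems of low degree contains the theorem on cubic hypersurfaces and the
theorem on intersections of two quadrics (each statement below is the old one, word for word, and
is deduced from the new theorem only).
-/

set_option autoImplicit false

namespace Pool.Agent.Lib.MP42.LowCheck

open Pool.Agent.Lib.MP42

theorem cubic (n : ℕ) (f : MvPolynomial (Fin n) ℚ) (hf : f.totalDegree ≤ 3) :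
    Semialgebraic (ratClosure {f}) := by
  have h := Pool.Agent.Results.MP_42de19_nt.LowDegreeSystems.result n {f} (by
    rw [Finset.sum_singleton]; omega)
  rwa [Finset.coe_singleton] at h

theorem two_quadrics (n : ℕ) (f₁ f₂ : MvPolynomial (Fin n) ℚ) (h₁ : f₁.totalDegree ≤ 2)
    (h₂ : f₂.totalDegree ≤ 2) : Semialgebraic (ratClosure {f₁, f₂}) := by
  classical
  have h := Pool.Agent.Results.MP_42de19_nt.LowDegreeSystems.result n {f₁, f₂} (by
    by_cases he : f₁ = f₂
    · rw [he, Finset.pair_eq_singleton, Finset.sum_singleton]; omega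
    · rw [Finset.sum_pair he]; omega)
  rwa [Finset.coe_pair] at h

end Pool.Agent.Lib.MP42.LowCheck
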