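import Pool.Agent.Lib.MP_42de19_nt.CubicHyp.Main
import Pool.Agent.Lib.MP_42de19_nt.CubicHyp.QuadMain
import Pool.Agent.Lib.MP_42de19_nt.QF.Sub

/-!
Elimination of linear equations.
-/

set_option autoImplicit false

namespace Pool.Agent.Lib.MP42.Low

open Set Topology Filter Pool.Agent.Lib.MP42

variable {n : ℕ}

/-- Substitution of a polynomial for one variable. -/
noncomputable def subL (j : Fin n) (μ : MvPolynomial (Fin n) ℚ) :
    MvPolynomial (Fin n) ℚ →ₐ[ℚ] MvPolynomial (Fin n) ℚ :=
  MvPolynomial.aeval (fun i => if i = j then μ else MvPolynomial.X i)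

theorem eval_subL (j : Fin n) (μ f : MvPolynomial (Fin n) ℚ) (z : Fin n → ℚ) :
    MvPolynomial.eval z (subL j μ f) =
      MvPolynomial.eval (Function.update z j (MvPolynomial.eval z μ)) f := by
  have h : MvPolynomial.aeval z (subL j μ f) =
      MvPolynomial.aeval (Function.update z j (MvPolynomial.aeval z μ)) f := by
    unfold subL
    rw [MvPolynomial.comp_aeval_apply]
    congr 2
    funext i
    by_cases hi : i = j
    · subst hi; rw [if_pos rfl, Function.update_self]
    · rw [if_neg hi, Function.update_of_ne hi, MvPolynomial.aeval_X]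
  simpa only [MvPolynomial.aeval_eq_eval] using h

theorem totalDegree_subL_le {j : Fin n} {μ : MvPolynomial (Fin n) ℚ} (hμ : μ.totalDegree ≤ 1)
    (f : MvPolynomial (Fin n) ℚ) : (subL j μ f).totalDegree ≤ f.totalDegree := by
  unfold subL
  rw [MvPolynomial.aeval_def, MvPolynomial.eval₂_eq']
  refine (MvPolynomial.totalDegree_finsetSum _ _).trans ?_
  refine Finset.sup_le fun e he => ?_
  refine (MvPolynomial.totalDegree_mul _ _).trans ?_
  have h1 : (algebraMap ℚ (MvPolynomial (Fin n) ℚ) (MvPolynomial.coeff e f)).totalDegree = 0 :=
    MvPolynomial.totalDegree_C _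
  rw [h1, zero_add]
  refine (MvPolynomial.totalDegree_finsetProd _ _).trans ?_
  have h2 : ∀ i, ((if i = j then μ else MvPolynomial.X i : MvPolynomial (Fin n) ℚ) ^
      e i).totalDegree ≤ e i := by
    intro i
    refine (MvPolynomial.totalDegree_pow _ _).trans ?_
    have h3 : (if i = j then μ else MvPolynomial.X i : MvPolynomial (Fin n) ℚ).totalDegree ≤ 1 := by
      split_ifs
      · exact hμ
      · rw [MvPolynomial.totalDegree_X]
    calc e i * _ ≤ e i * 1 := Nat.mul_le_mul_left _ h3
      _ = e i := mul_one _
  refine (Finset.sum_le_sum fun i _ => h2 i).trans ?_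
  have h4 := MvPolynomial.le_totalDegree he
  rw [Finsupp.sum_fintype _ _ (fun _ => rfl)] at h4
  exact h4

theorem exists_linear {f : MvPolynomial (Fin n) ℚ} (h1 : f.totalDegree ≤ 1)
    (h0 : f.totalDegree ≠ 0) : ∃ (j : Fin n) (a : ℚ) (l : MvPolynomial (Fin n) ℚ), a ≠ 0 ∧
      l.degreeOf j = 0 ∧ l.totalDegree ≤ 1 ∧ f = MvPolynomial.C a * MvPolynomial.X j + l := by
  classical
  have hv : f.vars ≠ ∅ := by
    intro hv
    apply h0
    have h2 : ∃ c, f = MvPolynomial.C c := by
      have := MvPolynomial.mem_supported_vars f
      rw [hv] at this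
      have h3 : f ∈ MvPolynomial.supported ℚ (∅ : Set (Fin n)) := by simpa using this
      rw [MvPolynomial.supported_empty, Algebra.mem_bot] at h3
      obtain ⟨c, hc⟩ := h3
      exact ⟨c, hc.symm⟩
    obtain ⟨c, hc⟩ := h2
    rw [hc, MvPolynomial.totalDegree_C]
  obtain ⟨j, hj⟩ := Finset.nonempty_iff_ne_empty.mpr hv
  have hsing : ∀ d ∈ f.support, d j ≠ 0 → d = Finsupp.single j 1 := by
    intro d hd hdj
    have h2 := (MvPolynomial.le_totalDegree hd).trans h1
    rw [Finsupp.sum_fintype _ _ (fun _ => rfl)] at h2
    have h3 : ∀ i, i ≠ j → d i = 0 := by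
      intro i hi
      have h4 : d i + d j ≤ ∑ i, d i := by
        have := Finset.sum_le_sum_of_subset (f := fun i => d i)
          (Finset.subset_univ ({i, j} : Finset (Fin n)))
        rwa [Finset.sum_pair hi] at this
      omega
    have h5 : d j ≤ 1 := by
      have := Finset.single_le_sum (f := fun i => d i) (fun i _ => Nat.zero_le _)
        (Finset.mem_univ j)
      omega
    ext i
    by_cases hi : i = j
    · subst hi; rw [Finsupp.single_eq_same]; omega
    · rw [h3 i hi, Finsupp.single_eq_of_ne hi]
  set a := MvPolynomial.coeff (Finsupp.single j 1) f with ha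
  have ha0 : a ≠ 0 := by
    obtain ⟨d, hd, hjd⟩ := (MvPolynomial.mem_vars_iff_mem_support j).mp hj
    rw [Finsupp.mem_support_iff] at hjd
    have h2 := hsing d hd hjd
    rw [h2] at hd
    exact MvPolynomial.mem_support_iff.mp hd
  refine ⟨j, a, f - MvPolynomial.C a * MvPolynomial.X j, ha0, ?_, ?_, by ring⟩
  · rw [← Nat.le_zero, MvPolynomial.degreeOf_le_iff]
    intro d hd
    by_contra hcon
    have hdj : d j ≠ 0 := by omega
    rw [MvPolynomial.mem_support_iff, MvPolynomial.coeff_sub] at hd
    by_cases h2 : d = Finsupp.single j 1
    · rw [h2, MvPolynomial.coeff_C_mul, MvPolynomial.coeff_X, if_pos rfl, mul_one, sub_self] at hd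
      exact hd rfl
    · apply hd
      have h3 : MvPolynomial.coeff d f = 0 := by
        by_contra h4
        exact h2 (hsing d (MvPolynomial.mem_support_iff.mpr h4) hdj)
      have h5 : MvPolynomial.coeff d (MvPolynomial.X j : MvPolynomial (Fin n) ℚ) = 0 := by
        rw [MvPolynomial.coeff_X, if_neg (fun h => h2 h.symm)]
      rw [h3, MvPolynomial.coeff_C_mul, h5, mul_zero, sub_zero]
  · refine (MvPolynomial.totalDegree_sub _ _).trans (max_le h1 ?_)
    refine (MvPolynomial.totalDegree_mul _ _).trans ?_
    rw [MvPolynomial.totalDegree_C, MvPolynomial.totalDegree_X]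

theorem sa_elim {j : Fin n} {a : ℚ} {l : MvPolynomial (Fin n) ℚ} (ha : a ≠ 0)
    (hl : l.degreeOf j = 0) {S S' : Set (Fin n → ℚ)}
    (hS : ∀ z, z ∈ S ↔ MvPolynomial.eval z (MvPolynomial.C a * MvPolynomial.X j + l) = 0 ∧ z ∈ S')
    (hS' : ∀ z, z ∈ S' →
      Function.update z j (MvPolynomial.eval z (MvPolynomial.C (-a⁻¹) * l)) ∈ S')
    (h : SA (evR n) (closure (castSet S'))) : SA (evR n) (closure (castSet S)) := by
  set μ : MvPolynomial (Fin n) ℚ := MvPolynomial.C (-a⁻¹) * l with hμ
  have hμj : μ.degreeOf j = 0 := by
    have h1 := MvPolynomial.degreeOf_C_mul_le l j (-a⁻¹)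
    rw [← hμ] at h1
    omega
  have hzero : ∀ z : Fin n → ℚ, MvPolynomial.eval z (MvPolynomial.C a * MvPolynomial.X j + l) = 0 ↔
      z j = MvPolynomial.eval z μ := by
    intro z
    rw [hμ, map_add, map_mul, map_mul, MvPolynomial.eval_C, MvPolynomial.eval_C,
      MvPolynomial.eval_X]
    constructor
    · intro h
      field_simp
      linear_combination h
    · intro h
      rw [h]
      field_simp
      ring
  have hcontj : Continuous fun x : Fin n → ℝ => x j := continuous_apply j
  have hset : SA (evR n) {x : Fin n → ℝ | x j = MvPolynomial.aeval x μ} := by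
    have : {x : Fin n → ℝ | x j = MvPolynomial.aeval x μ} =
        {x | evR n (MvPolynomial.X j - μ) x = 0} := by
      ext x
      rw [mem_ofPred_eq, mem_ofPred_eq, evR_apply, map_sub, MvPolynomial.aeval_X, sub_eq_zero]
    rw [this]; exact SA.eq_zero _
  have heq : closure (castSet S) = closure (castSet S') ∩
      {x : Fin n → ℝ | x j = MvPolynomial.aeval x μ} := by
    apply Set.Subset.antisymm
    · refine closure_minimal ?_ (isClosed_closure.inter
        (isClosed_eq hcontj (continuous_aeval μ)))
      rintro x ⟨z, hz, hx⟩
      obtain ⟨h1, h2⟩ := (hS z).mp hz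
      refine ⟨subset_closure ⟨z, h2, hx⟩, ?_⟩
      rw [hzero] at h1
      have hxz : x = fun i => (z i : ℝ) := funext hx
      rw [mem_ofPred_eq, hxz, aeval_ratCast, ← h1]
    · rintro x ⟨hx, hxj⟩
      rw [mem_ofPred_eq] at hxj
      rw [Metric.mem_closure_iff] at hx ⊢
      intro ε hε
      have hc : ContinuousAt (fun x : Fin n → ℝ => (MvPolynomial.aeval x μ : ℝ)) x :=
        (continuous_aeval μ).continuousAt
      obtain ⟨δ, hδ, hc⟩ := Metric.continuousAt_iff.mp hc ε hε
      obtain ⟨w, ⟨z, hz, hw⟩, hd⟩ := hx (min ε δ) (lt_min hε hδ)
      rw [dist_comm] at hd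
      have hwz : w = fun i => (z i : ℝ) := funext hw
      have hd1 := hc (lt_of_lt_of_le hd (min_le_right _ _))
      set z' : Fin n → ℚ := Function.update z j (MvPolynomial.eval z μ) with hz'
      have hz'S : z' ∈ S := by
        rw [hS]
        refine ⟨?_, hS' z hz⟩
        rw [hzero, hz', Function.update_self]
        apply eval_congr_deg
        intro i hi
        have hij : i ≠ j := by rintro rfl; exact hi hμj
        rw [Function.update_of_ne hij]
      refine ⟨fun i => (z' i : ℝ), ⟨z', hz'S, fun i => rfl⟩, ?_⟩
      rw [dist_comm, dist_pi_lt_iff hε]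
      intro i
      by_cases hi : i = j
      · subst hi
        rw [hz', Function.update_self, hxj]
        rw [hwz, aeval_ratCast] at hd1
        exact hd1
      · rw [hz', Function.update_of_ne hi, ← hw i]
        exact lt_of_le_of_lt (dist_le_pi_dist w x i) (lt_of_lt_of_le hd (min_le_left _ _))
  rw [heq]
  exact h.inter hset

/-- common rational zeros of a list of polynomials -/
def zeros (L : List (MvPolynomial (Fin n) ℚ)) : Set (Fin n → ℚ) :=
  {z | ∀ f ∈ L, MvPolynomial.eval z f = 0}

theorem castSet_zeros_eq (L : List (MvPolynomial (Fin n) ℚ)) :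
    closure (castSet (zeros L)) = ratClosure {f | f ∈ L} := rfl

theorem sa_low : ∀ (c : ℕ) (L : List (MvPolynomial (Fin n) ℚ)), L.length = c →
    (L.map fun f => f.totalDegree - 1).sum ≤ 2 → SA (evR n) (closure (castSet (zeros L))) := by
  classical
  intro c
  induction c with
  | zero =>
    intro L hL _
    rw [List.length_eq_zero_iff.mp hL]
    have : closure (castSet (zeros ([] : List (MvPolynomial (Fin n) ℚ)))) = Set.univ := by
      apply Set.eq_univ_of_forall
      intro x
      rw [Metric.mem_closure_iff]
      intro ε hε
      have h1 : ∀ j, ∃ q : ℚ, |(q : ℝ) - x j| < ε := fun j => by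
        obtain ⟨q, h1, h2⟩ := exists_rat_btwn (show x j - ε < x j + ε by linarith)
        exact ⟨q, by rw [abs_lt]; constructor <;> linarith⟩
      choose z hz using h1
      refine ⟨fun i => (z i : ℝ), ⟨z, fun f hf => absurd hf (by simp), fun i => rfl⟩, ?_⟩
      rw [dist_comm, dist_pi_lt_iff hε]
      intro i
      rw [Real.dist_eq]
      exact hz i
    rw [this]; exact SA.univ
  | succ c ih =>
    intro L hL hsum
    by_cases hex : ∃ f ∈ L, f.totalDegree ≤ 1
    · -- a polynomial of degree at most one
      obtain ⟨f, hf, hf1⟩ := hex
      set L' := L.erase f with hL'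
      have hperm : L.Perm (f :: L') := List.perm_cons_erase hf
      have hlen : L'.length = c := by
        have := hperm.length_eq
        rw [List.length_cons, hL] at this
        omega
      have hsum' : (L'.map fun f => f.totalDegree - 1).sum ≤ 2 := by
        have := (hperm.map fun f => f.totalDegree - 1).sum_eq
        rw [List.map_cons, List.sum_cons] at this
        omega
      have hmem : ∀ g, g ∈ L ↔ g = f ∨ g ∈ L' := by
        intro g
        rw [hperm.mem_iff, List.mem_cons]
      by_cases h0 : f.totalDegree = 0
      · -- a constant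
        obtain ⟨q, hq⟩ : ∃ q, f = MvPolynomial.C q :=
          ⟨_, MvPolynomial.totalDegree_eq_zero_iff_eq_C.mp h0⟩
        by_cases hq0 : q = 0
        · have : zeros L = zeros L' := by
            ext z
            constructor
            · intro hz g hg; exact hz g ((hmem g).mpr (Or.inr hg))
            · intro hz g hg
              rcases (hmem g).mp hg with rfl | hg
              · rw [hq, hq0, MvPolynomial.eval_C]
              · exact hz g hg
          rw [this]; exact ih L' hlen hsum'
        · have : castSet (zeros L) = ∅ := by
            rw [Set.eq_empty_iff_forall_notMem]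
            rintro x ⟨z, hz, -⟩
            apply hq0
            have := hz f hf
            rwa [hq, MvPolynomial.eval_C] at this
          rw [this, closure_empty]; exact SA.empty
      · -- a linear polynomial
        obtain ⟨j, a, l, ha, hlj, hl1, hfl⟩ := exists_linear hf1 h0
        set μ : MvPolynomial (Fin n) ℚ := MvPolynomial.C (-a⁻¹) * l with hμ
        have hμ1 : μ.totalDegree ≤ 1 := by
          refine (MvPolynomial.totalDegree_mul _ _).trans ?_
          rw [MvPolynomial.totalDegree_C, zero_add]; exact hl1
        have hμj : μ.degreeOf j = 0 := by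
          have h1 := MvPolynomial.degreeOf_C_mul_le l j (-a⁻¹)
          rw [← hμ] at h1
          omega
        have h := ih (L'.map (subL j μ)) (by rw [List.length_map]; exact hlen) (by
          rw [List.map_map]
          refine le_trans (List.sum_le_sum fun g _ => ?_) hsum'
          exact Nat.sub_le_sub_right (totalDegree_subL_le hμ1 g) 1)
        refine sa_elim (S' := zeros (L'.map (subL j μ))) ha hlj (fun z => ?_) (fun z hz => ?_) h
        · have hzj : MvPolynomial.eval z (MvPolynomial.C a * MvPolynomial.X j + l) = 0 →
              Function.update z j (MvPolynomial.eval z μ) = z := by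
            intro h1
            have h2 : MvPolynomial.eval z μ = z j := by
              rw [hμ, map_mul, MvPolynomial.eval_C]
              rw [map_add, map_mul, MvPolynomial.eval_C, MvPolynomial.eval_X] at h1
              field_simp
              linear_combination -h1
            rw [h2, Function.update_eq_self]
          constructor
          · intro hz
            have h1 : MvPolynomial.eval z (MvPolynomial.C a * MvPolynomial.X j + l) = 0 := by
              rw [← hfl]; exact hz f hf
            refine ⟨h1, fun g hg => ?_⟩
            obtain ⟨g', hg', rfl⟩ := List.mem_map.mp hg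
            rw [eval_subL, hzj h1]
            exact hz g' ((hmem g').mpr (Or.inr hg'))
          · rintro ⟨h1, hz⟩ g hg
            rcases (hmem g).mp hg with rfl | hg
            · rw [hfl]; exact h1
            · have := hz (subL j μ g) (List.mem_map.mpr ⟨g, hg, rfl⟩)
              rwa [eval_subL, hzj h1] at this
        · intro g hg
          obtain ⟨g', hg', rfl⟩ := List.mem_map.mp hg
          rw [eval_subL]
          have h1 : MvPolynomial.eval (Function.update z j (MvPolynomial.eval z μ)) μ =
              MvPolynomial.eval z μ := by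
            apply eval_congr_deg
            intro i hi
            have hij : i ≠ j := by rintro rfl; exact hi hμj
            rw [Function.update_of_ne hij]
          rw [← hμ, h1, Function.update_idem]
          have := hz (subL j μ g') (List.mem_map.mpr ⟨g', hg', rfl⟩)
          rwa [eval_subL] at this
    · -- all degrees are at least two
      push Not at hex
      have hle : ∀ f ∈ L, 1 ≤ f.totalDegree - 1 := fun f hf => by
        have := hex f hf
        omega
      rcases L with _ | ⟨f, _ | ⟨g, _ | ⟨h, L⟩⟩⟩
      · simp at hL
      · have h1 : f.totalDegree ≤ 3 := by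
          simp only [List.map_cons, List.map_nil, List.sum_cons, List.sum_nil] at hsum
          omega
        have h2 := IsSemialg.sa (CubicHyp.cubic f h1)
        have h3 : ratClosure {f' | f' ∈ [f]} = ratClosure {f} := by
          congr 1
          ext f'; simp
        rw [castSet_zeros_eq, h3]
        exact h2
      · have hf := hle f (by simp)
        have hg := hle g (by simp)
        have h1 : f.totalDegree ≤ 2 := by
          simp only [List.map_cons, List.map_nil, List.sum_cons, List.sum_nil] at hsum
          omega
        have h1' : g.totalDegree ≤ 2 := by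
          simp only [List.map_cons, List.map_nil, List.sum_cons, List.sum_nil] at hsum
          omega
        have h2 := IsSemialg.sa (CubicHyp.two_quadrics f g h1 h1')
        have h3 : ratClosure {f' | f' ∈ [f, g]} = ratClosure {f, g} := by
          congr 1
          ext f'; simp
        rw [castSet_zeros_eq, h3]
        exact h2
      · exfalso
        have hf := hle f (by simp)
        have hg := hle g (by simp)
        have hh := hle h (by simp)
        simp only [List.map_cons, List.sum_cons] at hsum
        omega

end Pool.Agent.Lib.MP42.Low
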